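import Pool.Agent.PCL.Stmts

/-!
Squad PCL, row MDQ: classes modulo `q` in a free abelian group of finite rank.
-/

set_option autoImplicit false

namespace Pool.Agent.PCL.H22

/-- **Row MDQ.** -/
theorem mdq : MdqStmt := by
  intro M _ _ _ q S hq hS
  classical
  have : NeZero q := ⟨Nat.pos_iff_ne_zero.mp hq⟩
  set b := Module.finBasis ℤ M with hb
  set φ : M → (Fin (Module.finrank ℤ M) → ZMod q) := fun x i => ((b.repr x i : ℤ) : ZMod q) with hφ
  have hinj : Set.InjOn φ (S : Set M) := by
    intro x hx y hy hxy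
    have hdiv : ∀ i, (q : ℤ) ∣ b.repr (x - y) i := by
      intro i
      have h1 : ((b.repr x i : ℤ) : ZMod q) = ((b.repr y i : ℤ) : ZMod q) := congrFun hxy i
      have h2 : ((b.repr (x - y) i : ℤ) : ZMod q) = 0 := by
        rw [map_sub, Finsupp.sub_apply, Int.cast_sub, h1, sub_self]
      exact (ZMod.intCast_zmod_eq_zero_iff_dvd _ _).mp h2
    choose c hc using hdiv
    refine hS x hx y hy (∑ i, c i • b i) ?_
    rw [Finset.smul_sum]
    calc x - y = ∑ i, b.repr (x - y) i • b i := (b.sum_repr (x - y)).symm
      _ = ∑ i, (q : ℤ) • c i • b i := by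
          refine Finset.sum_congr rfl fun i _ => ?_
          rw [hc i, mul_smul]
  have hcard : (S.image φ).card = S.card := Finset.card_image_of_injOn hinj
  calc S.card = (S.image φ).card := hcard.symm
    _ ≤ Fintype.card (Fin (Module.finrank ℤ M) → ZMod q) := Finset.card_le_univ _
    _ = q ^ Module.finrank ℤ M := by
        rw [Fintype.card_fun, ZMod.card, Fintype.card_fin]

end Pool.Agent.PCL.H22
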